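import Pool.Agent.W_7d29a1_h68.NPclip
import Pool.Agent.W_7d29a1_h48.Ins

/-!
MP_7d29a1_pr, track G, hB0: the Gibbs probability `pin` of a site as a function of the value at the
site, and the sites of a tube. (helper68)
-/

namespace Pool.Agent.W_7d29a1_h68

open MeasureTheory ProbabilityTheory Filter Topology Pool.Agent.W_7d29a1_F
open Pool.Agent.W_7d29a1_h48 (pin)

variable {μ : Measure ℝ} {s : ℝ}

private lemma up_eq (η : Env) (t : ℕ) (z : ℤ) (u : ℝ) {q : Pt} (hq : q ≠ ((t : ℤ), z)) :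
    Function.update η ((t : ℤ), z) u q = η q := Function.update_of_ne hq u η

/-- The weight of the paths to the other sites of the row. -/
lemma W_up_ne (η : Env) (t : ℕ) {z k : ℤ} (hk : k ≠ z) (u : ℝ) :
    W μ s (Function.update η ((t : ℤ), z) u) 0 t k = W μ s η 0 t k := by
  refine W_dep (μ := μ) (s := s) 0 t k fun p hp => up_eq η t z u fun h => ?_
  obtain ⟨h1, h2, h3, h4, h5, h6⟩ := hp
  rw [h] at h1 h2 h3 h4 h5 h6
  have e1 : (0 : Pt).1 = 0 := rfl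
  have e2 : (0 : Pt).2 = 0 := rfl
  simp only [e1, e2] at h1 h2 h3 h4 h5 h6
  omega

/-- The weight of the paths which start in the row. -/
lemma W_up_after (η : Env) (t : ℕ) (z k : ℤ) (u : ℝ) (m : ℕ) (y : ℤ) :
    W μ s (Function.update η ((t : ℤ), z) u) ((t : ℤ), k) m y = W μ s η ((t : ℤ), k) m y := by
  refine W_dep (μ := μ) (s := s) _ m y fun p hp => up_eq η t z u fun h => ?_
  obtain ⟨h1, _⟩ := hp
  rw [h] at h1
  exact absurd h1 (lt_irrefl _)

/-- The weight of the paths to the site. -/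
lemma W_up_eq (η : Env) {t : ℕ} (ht : 1 ≤ t) (z : ℤ) (u : ℝ) :
    W μ s (Function.update η ((t : ℤ), z) u) 0 t z =
      Real.exp (-η ((t : ℤ), z)) * W μ s η 0 t z * Real.exp u := by
  obtain ⟨t', rfl⟩ : ∃ t', t = t' + 1 := ⟨t - 1, by omega⟩
  obtain ⟨q, hq⟩ : ∃ q : Pt, q = (((t' + 1 : ℕ) : ℤ), z) := ⟨_, rfl⟩
  rw [← hq]
  have hsucc : ∀ ξ : Env, Zr Set.univ ξ 0 (t' + 1) z =
      Real.exp (ξ q) * (Zr Set.univ ξ 0 t' z + Zr Set.univ ξ 0 t' (z - 1)) := by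
    intro ξ
    show Set.univ.indicator (fun p => Real.exp (ξ p)) ((0 : Pt).1 + ((t' : ℤ) + 1), (0 : Pt).2 + z) *
      (Zr Set.univ ξ 0 t' z + Zr Set.univ ξ 0 t' (z - 1)) = _
    have e1 : (((0 : Pt).1 + ((t' : ℤ) + 1), (0 : Pt).2 + z) : Pt) = q := by
      rw [hq]
      simp
    rw [Set.indicator_univ, e1]
  have hdep : ∀ k : ℤ, Zr Set.univ (Function.update η q u) 0 t' k = Zr Set.univ η 0 t' k := by
    intro k
    refine Zr_dep Set.univ 0 t' k fun p hp => ?_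
    refine Function.update_of_ne (fun h => ?_) u η
    obtain ⟨⟨_, h2, _⟩, _⟩ := hp
    rw [h, hq] at h2
    have e1 : (0 : Pt).1 = 0 := rfl
    simp only [e1] at h2
    push_cast at h2
    omega
  have hW : ∀ ξ : Env, W μ s ξ 0 (t' + 1) z =
      Real.exp (s * z - ((t' + 1 : ℕ) : ℝ) * lam μ s) * Zr Set.univ ξ 0 (t' + 1) z := fun ξ => rfl
  rw [hW, hW, hsucc, hsucc, hdep, hdep, Function.update_self]
  have e2 : Real.exp (-η q) * Real.exp (η q) = 1 := by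
    rw [← Real.exp_add]
    simp
  calc Real.exp (s * z - ((t' + 1 : ℕ) : ℝ) * lam μ s) *
        (Real.exp u * (Zr Set.univ η 0 t' z + Zr Set.univ η 0 t' (z - 1)))
      = (Real.exp (-η q) * Real.exp (η q)) * (Real.exp (s * z - ((t' + 1 : ℕ) : ℝ) * lam μ s) *
        (Real.exp u * (Zr Set.univ η 0 t' z + Zr Set.univ η 0 t' (z - 1)))) := by
        rw [e2, one_mul]
    _ = _ := by ring

private lemma W_add0 (η : Env) (t m : ℕ) (y : ℤ) : W μ s η 0 (t + m) y =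
    ∑ k ∈ Finset.Icc (0 : ℤ) t, W μ s η 0 t k * W μ s η ((t : ℤ), k) m (y - k) := by
  rw [W_add η 0 t m y]
  refine Finset.sum_congr rfl fun k _ => ?_
  have e1 : (((0 : Pt).1 + (t : ℤ), (0 : Pt).2 + k) : Pt) = ((t : ℤ), k) := by simp
  rw [e1]

/-- `pin` is the Gibbs probability of the site. -/
theorem siteForm_pin {t m : ℕ} (ht : 1 ≤ t) {y z : ℤ} (hz : z ∈ Finset.Icc (0 : ℤ) t)
    (h0 : 0 ≤ y) (h1 : y ≤ (t + m : ℕ)) :
    SiteForm (fun η => Real.log (W μ s η 0 (t + m) y)) (fun η => pin μ s η t m y z)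
      ((t : ℤ), z) := by
  intro η
  obtain ⟨A, hA⟩ : ∃ A, A = Real.exp (-η ((t : ℤ), z)) * W μ s η 0 t z *
    W μ s η ((t : ℤ), z) m (y - z) := ⟨_, rfl⟩
  obtain ⟨B, hB⟩ : ∃ B, B = ∑ k ∈ (Finset.Icc (0 : ℤ) t).erase z,
    W μ s η 0 t k * W μ s η ((t : ℤ), k) m (y - k) := ⟨_, rfl⟩
  have hA0 : 0 ≤ A := by
    rw [hA]
    exact mul_nonneg (mul_nonneg (Real.exp_pos _).le (W_nonneg _ _ _ _)) (W_nonneg _ _ _ _)
  have hB0 : 0 ≤ B := by
    rw [hB]
    exact Finset.sum_nonneg fun k _ => mul_nonneg (W_nonneg _ _ _ _) (W_nonneg _ _ _ _)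
  have hu : ∀ u : ℝ, W μ s (Function.update η ((t : ℤ), z) u) 0 (t + m) y =
      A * Real.exp u + B ∧ W μ s (Function.update η ((t : ℤ), z) u) 0 t z *
        W μ s (Function.update η ((t : ℤ), z) u) ((t : ℤ), z) m (y - z) = A * Real.exp u := by
    intro u
    have e1 : W μ s (Function.update η ((t : ℤ), z) u) 0 t z *
        W μ s (Function.update η ((t : ℤ), z) u) ((t : ℤ), z) m (y - z) = A * Real.exp u := by
      rw [W_up_eq η ht z u, W_up_after η t z z u m, hA]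
      ring
    refine ⟨?_, e1⟩
    rw [W_add0, ← Finset.add_sum_erase _ _ hz, e1, hB]
    congr 1
    refine Finset.sum_congr rfl fun k hk => ?_
    rw [W_up_ne η t (Finset.ne_of_mem_erase hk) u, W_up_after η t z k u m]
  have hAB : 0 < A + B := by
    have h2 := (hu 0).1
    rw [Real.exp_zero, mul_one] at h2
    rw [← h2]
    exact W_pos _ _ h0 h1
  refine ⟨A, B, hA0, hB0, hAB, fun u => ⟨?_, ?_⟩⟩
  · show Real.log (W μ s (Function.update η ((t : ℤ), z) u) 0 (t + m) y) = _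
    rw [(hu u).1]
  · show pin μ s (Function.update η ((t : ℤ), z) u) t m y z = _
    unfold Pool.Agent.W_7d29a1_h48.pin
    rw [(hu u).2, (hu u).1]

lemma pin_nonneg (η : Env) (t m : ℕ) (y z : ℤ) : 0 ≤ pin μ s η t m y z :=
  div_nonneg (mul_nonneg (W_nonneg _ _ _ _) (W_nonneg _ _ _ _)) (W_nonneg _ _ _ _)

lemma measurable_pin (t m : ℕ) (y z : ℤ) : Measurable fun η => pin μ s η t m y z := by
  unfold Pool.Agent.W_7d29a1_h48.pin
  exact ((measurable_W _ _ _).mul (measurable_W _ _ _)).div (measurable_W _ _ _)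

lemma pin_sum (η : Env) {t m : ℕ} {y : ℤ} (h0 : 0 ≤ y) (h1 : y ≤ (t + m : ℕ)) :
    ∑ z ∈ Finset.Icc (0 : ℤ) t, pin μ s η t m y z = 1 := by
  unfold Pool.Agent.W_7d29a1_h48.pin
  rw [← Finset.sum_div, ← W_add0]
  exact div_self (W_pos _ _ h0 h1).ne'

open Classical in
/-- The positions at time `t` at distance at most `b` from `t / 2`. -/
noncomputable def cell (b : ℝ) (t : ℕ) : Finset ℤ :=
  (Finset.Icc (0 : ℤ) t).filter fun z => |(z : ℝ) - t / 2| ≤ b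

lemma mem_cell {b : ℝ} {t : ℕ} {z : ℤ} : z ∈ cell b t ↔ z ∈ Finset.Icc (0 : ℤ) t ∧
    |(z : ℝ) - t / 2| ≤ b := by
  unfold cell
  rw [Finset.mem_filter]

lemma card_cell (b : ℝ) (t : ℕ) : ((cell b t).card : ℝ) ≤ 2 * |b| + 1 := by
  have h1 : cell b t ⊆ Finset.Icc ⌈(t : ℝ) / 2 - |b|⌉ ⌊(t : ℝ) / 2 + |b|⌋ := by
    intro z hz
    obtain ⟨h2, h3⟩ := abs_le.1 ((mem_cell.1 hz).2.trans (le_abs_self b))
    rw [Finset.mem_Icc, Int.ceil_le, Int.le_floor]
    constructor <;> linarith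
  have h2 : ((cell b t).card : ℝ) ≤ ((Finset.Icc ⌈(t : ℝ) / 2 - |b|⌉ ⌊(t : ℝ) / 2 + |b|⌋).card : ℝ) := by
    exact_mod_cast Finset.card_le_card h1
  refine h2.trans ?_
  rw [Int.card_Icc]
  have h3 : ((((⌊(t : ℝ) / 2 + |b|⌋ + 1 - ⌈(t : ℝ) / 2 - |b|⌉).toNat : ℕ) : ℤ) : ℝ) ≤
      max (((⌊(t : ℝ) / 2 + |b|⌋ + 1 - ⌈(t : ℝ) / 2 - |b|⌉ : ℤ)) : ℝ) 0 := by
    rw [Int.toNat_eq_max]
    push_cast
    exact le_rfl
  rw [Int.cast_natCast] at h3
  refine h3.trans (max_le ?_ (by positivity))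
  push_cast
  have h4 := Int.floor_le ((t : ℝ) / 2 + |b|)
  have h5 := Int.le_ceil ((t : ℝ) / 2 - |b|)
  linarith

/-- The sites of the tube of half width `b` at the times `1, ..., N`. -/
noncomputable def tube (b : ℝ) (N : ℕ) : Finset Pt :=
  ((Finset.Icc 1 N).sigma fun t => cell b t).image fun q => ((q.1 : ℤ), q.2)

lemma tube_inj (b : ℝ) (N : ℕ) : Set.InjOn (fun q : (_ : ℕ) × ℤ => (((q.1 : ℤ), q.2) : Pt))
    ((Finset.Icc 1 N).sigma fun t => cell b t : Finset ((_ : ℕ) × ℤ)) := by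
  rintro ⟨t, z⟩ _ ⟨t', z'⟩ _ h
  simp only [Prod.mk.injEq, Nat.cast_inj] at h
  obtain ⟨rfl, rfl⟩ := h
  rfl

lemma mem_tube {b : ℝ} {N : ℕ} {p : Pt} : p ∈ tube b N ↔ ∃ t : ℕ, ∃ z : ℤ, 1 ≤ t ∧ t ≤ N ∧
    z ∈ cell b t ∧ p = ((t : ℤ), z) := by
  unfold tube
  rw [Finset.mem_image]
  constructor
  · rintro ⟨⟨t, z⟩, h, rfl⟩
    rw [Finset.mem_sigma, Finset.mem_Icc] at h
    exact ⟨t, z, h.1.1, h.1.2, h.2, rfl⟩
  · rintro ⟨t, z, h1, h2, h3, rfl⟩
    exact ⟨⟨t, z⟩, Finset.mem_sigma.2 ⟨Finset.mem_Icc.2 ⟨h1, h2⟩, h3⟩, rfl⟩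

lemma sum_tube (b : ℝ) (N : ℕ) (f : Pt → ℝ) :
    ∑ p ∈ tube b N, f p = ∑ t ∈ Finset.Icc 1 N, ∑ z ∈ cell b t, f ((t : ℤ), z) := by
  unfold tube
  rw [Finset.sum_image (tube_inj b N), Finset.sum_sigma]

lemma card_tube (b : ℝ) (N : ℕ) : ((tube b N).card : ℝ) ≤ N * (2 * |b| + 1) := by
  have h1 := sum_tube b N fun _ => 1
  rw [Finset.sum_const, nsmul_eq_mul, mul_one] at h1
  rw [h1]
  calc ∑ t ∈ Finset.Icc 1 N, ∑ _z ∈ cell b t, (1 : ℝ) ≤ ∑ _t ∈ Finset.Icc 1 N, (2 * |b| + 1) := by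
        refine Finset.sum_le_sum fun t _ => ?_
        rw [Finset.sum_const, nsmul_eq_mul, mul_one]
        exact card_cell b t
    _ = N * (2 * |b| + 1) := by
        rw [Finset.sum_const, Nat.card_Icc, nsmul_eq_mul]
        simp

/-- The Gibbs probability of the site `p` for the polymer from `0` to `(N, y)`. -/
noncomputable def pp (μ : Measure ℝ) (s : ℝ) (N : ℕ) (y : ℤ) (p : Pt) (η : Env) : ℝ :=
  pin μ s η p.1.toNat (N - p.1.toNat) y p.2

lemma pp_nat (N : ℕ) (y : ℤ) (t : ℕ) (z : ℤ) (η : Env) :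
    pp μ s N y ((t : ℤ), z) η = pin μ s η t (N - t) y z := by
  unfold pp
  rw [Int.toNat_natCast]

variable [IsProbabilityMeasure μ]

/-- **Fluctuations of the point to point weight in probability, given that the polymer is in the
tube of half width `b` with probability at least `7 / 8` at all times.** -/
theorem fluct (hEM : Pool.Agent.W_7d29a1_h47.EM μ) (hnd : Pool.Agent.W_7d29a1_h47.Nondeg μ) :
    ∃ c K : ℝ, 0 < c ∧ 0 ≤ K ∧ ∀ (N : ℕ) (y : ℤ) (b : ℝ), 0 ≤ y → y ≤ N →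
      (∀ t : ℕ, 1 ≤ t → t ≤ N → 7 / 8 ≤ ∫ η, ∑ z ∈ cell b t, pin μ s η t (N - t) y z ∂(law μ)) →
      ∀ m r : ℝ, 0 ≤ r → (law μ).real {η | r ≤ |Real.log (W μ s η 0 N y) - m|} ≤ 1 / 8 →
      c * N ≤ (2 * |b| + 1) * (r ^ 2 + (r + K) ^ 2 / 8) := by
  obtain ⟨c, K, hc, hK, H⟩ := np_clip hEM hnd
  refine ⟨c ^ 2 / 4, K, by positivity, hK, ?_⟩
  intro N y b h0 h1 hconf m r hr hP
  obtain ⟨P, hPd⟩ : ∃ P, P = (law μ).real {η | r ≤ |Real.log (W μ s η 0 N y) - m|} := ⟨_, rfl⟩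
  have hP0 : 0 ≤ P := by
    rw [hPd]
    exact measureReal_nonneg
  have hF : Measurable fun η => Real.log (W μ s η 0 N y) :=
    Real.measurable_log.comp (measurable_W _ _ _)
  have hπ : ∀ p ∈ tube b N, Measurable (pp μ s N y p) := fun p _ => measurable_pin _ _ _ _
  have hS : ∀ p ∈ tube b N, SiteForm (fun η => Real.log (W μ s η 0 N y)) (pp μ s N y p) p := by
    intro p hp
    obtain ⟨t, z, ht1, htN, hz, rfl⟩ := mem_tube.1 hp
    have e1 : t + (N - t) = N := by omega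
    have h2 := siteForm_pin (μ := μ) (s := s) (m := N - t) ht1 (mem_cell.1 hz).1 h0
      (by rw [e1]; exact h1)
    rw [e1] at h2
    have e2 : pp μ s N y ((t : ℤ), z) = fun η => pin μ s η t (N - t) y z := by
      funext η
      exact pp_nat N y t z η
    rw [e2]
    exact h2
  have hint : ∀ t : ℕ, ∀ z : ℤ, t ∈ Finset.Icc 1 N → z ∈ cell b t →
      Integrable (fun η => pin μ s η t (N - t) y z) (law μ) := by
    intro t z ht hz
    rw [Finset.mem_Icc] at ht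
    have e1 : t + (N - t) = N := by omega
    refine Integrable.of_bound (C := 1) (measurable_pin _ _ _ _).aestronglyMeasurable
      (Filter.Eventually.of_forall fun η => ?_)
    have h2 := (siteForm_pin (μ := μ) (s := s) (m := N - t) ht.1 (mem_cell.1 hz).1 h0
      (by rw [e1]; exact h1)).mem η
    rw [Real.norm_eq_abs, abs_of_nonneg h2.1]
    exact h2.2
  have hM : ∀ η, ∑ p ∈ tube b N, pp μ s N y p η ≤ N := by
    intro η
    rw [sum_tube b N fun p => pp μ s N y p η]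
    calc ∑ t ∈ Finset.Icc 1 N, ∑ z ∈ cell b t, pp μ s N y ((t : ℤ), z) η
        ≤ ∑ _t ∈ Finset.Icc 1 N, (1 : ℝ) := by
          refine Finset.sum_le_sum fun t ht => ?_
          rw [Finset.mem_Icc] at ht
          have e1 : t + (N - t) = N := by omega
          rw [← pin_sum (μ := μ) (s := s) η (t := t) (m := N - t) h0 (by rw [e1]; exact h1)]
          simp only [pp_nat]
          refine Finset.sum_le_sum_of_subset_of_nonneg (fun z hz => (mem_cell.1 hz).1)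
            fun z _ _ => pin_nonneg _ _ _ _ _
      _ = N := by
          rw [Finset.sum_const, Nat.card_Icc, nsmul_eq_mul]
          simp
  have hsum : 7 / 8 * (N : ℝ) ≤ ∑ p ∈ tube b N, ∫ η, pp μ s N y p η ∂(law μ) := by
    rw [sum_tube b N fun p => ∫ η, pp μ s N y p η ∂(law μ)]
    calc 7 / 8 * (N : ℝ) = ∑ _t ∈ Finset.Icc 1 N, (7 / 8 : ℝ) := by
          rw [Finset.sum_const, Nat.card_Icc, nsmul_eq_mul]
          simp
          ring
      _ ≤ ∑ t ∈ Finset.Icc 1 N, ∑ z ∈ cell b t, ∫ η, pp μ s N y ((t : ℤ), z) η ∂(law μ) := by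
          refine Finset.sum_le_sum fun t ht => ?_
          simp only [pp_nat]
          rw [← integral_finsetSum _ fun z hz => hint t z ht hz]
          rw [Finset.mem_Icc] at ht
          exact hconf t ht.1 ht.2
  have hN0 : (0 : ℝ) ≤ N := Nat.cast_nonneg N
  rw [← hPd] at hP
  have hNP : (N : ℝ) * P ≤ N * (1 / 8) := mul_le_mul_of_nonneg_left hP hN0
  have hX : N / 2 ≤ 7 / 8 * (∑ p ∈ tube b N, ∫ η, pp μ s N y p η ∂(law μ)) - N * P := by
    linarith
  have h3 := H (tube b N) _ (pp μ s N y) hF hπ hS N m r hr hM (by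
    rw [← hPd]
    linarith)
  rw [← hPd] at h3
  have h4 : (c * (N / 2)) ^ 2 ≤ ((tube b N).card : ℝ) * (r ^ 2 + (r + K) ^ 2 * P) := by
    refine le_trans ?_ h3
    exact pow_le_pow_left₀ (by positivity) (mul_le_mul_of_nonneg_left hX hc.le) 2
  have h5 : r ^ 2 + (r + K) ^ 2 * P ≤ r ^ 2 + (r + K) ^ 2 / 8 := by
    have := mul_le_mul_of_nonneg_left hP (sq_nonneg (r + K))
    linarith
  have h6 : (c * (N / 2)) ^ 2 ≤ (N * (2 * |b| + 1)) * (r ^ 2 + (r + K) ^ 2 / 8) := by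
    refine h4.trans (mul_le_mul (card_tube b N) h5 (by positivity) (by positivity))
  rcases Nat.eq_zero_or_pos N with hN | hN
  · rw [hN]
    simp only [Nat.cast_zero, mul_zero]
    positivity
  · have hN1 : (0 : ℝ) < N := by exact_mod_cast hN
    have h7 : N * (c ^ 2 / 4 * N) ≤ N * ((2 * |b| + 1) * (r ^ 2 + (r + K) ^ 2 / 8)) := by
      calc N * (c ^ 2 / 4 * N) = (c * (N / 2)) ^ 2 := by ring
        _ ≤ _ := h6
        _ = _ := by ring
    exact le_of_mul_le_mul_left h7 hN1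

end Pool.Agent.W_7d29a1_h68
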