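import Pool.Agent.W_7d29a1_F.CoreA
import Pool.Agent.W_7d29a1_f21.Ind
import Pool.Agent.W_7d29a1_h47.SiteG
import Pool.Agent.W_7d29a1_h47.Defs

/-!
MP_7d29a1_pr, track G, hB0: the one site inequality for clipped functionals (Newman - Piza in
probability). (helper68)
-/

namespace Pool.Agent.W_7d29a1_h68

open MeasureTheory ProbabilityTheory Filter Topology Pool.Agent.W_7d29a1_F

/-- Clip to `[m - H, m + H]`. -/
noncomputable def clip (m H r : ℝ) : ℝ := max (m - H) (min r (m + H))

lemma clip_mono (m H : ℝ) {r r' : ℝ} (h : r ≤ r') : clip m H r ≤ clip m H r' :=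
  max_le_max le_rfl (min_le_min h le_rfl)

lemma clip_eq {m H r : ℝ} (h : |r - m| ≤ H) : clip m H r = r := by
  obtain ⟨h1, h2⟩ := abs_le.1 h
  unfold clip
  rw [min_eq_left (by linarith), max_eq_right (by linarith)]

lemma clip_abs {m H : ℝ} (hH : 0 ≤ H) (r : ℝ) : |clip m H r - m| ≤ H := by
  unfold clip
  rw [abs_le]
  constructor
  · have := le_max_left (m - H) (min r (m + H))
    linarith
  · have : max (m - H) (min r (m + H)) ≤ m + H := max_le (by linarith) (min_le_right _ _)
    linarith

lemma clip_abs' {m H : ℝ} (hH : 0 ≤ H) (r : ℝ) : |clip m H r - m| ≤ |r - m| := by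
  rcases le_total (|r - m|) H with h | h
  · rw [clip_eq h]
  · exact (clip_abs hH r).trans h

lemma clip_measurable (m H : ℝ) : Measurable (clip m H) := by
  unfold clip
  fun_prop

/-- Pure calculus: `φ u = log (A e^u + B)`, `π u = A e^u / (A e^u + B)`. -/
lemma site_calc {A B a b K s m : ℝ} (hA : 0 ≤ A) (hB : 0 ≤ B) (hAB : 0 < A + B) (hab : a < b)
    (ha : |a| ≤ K) (hb : |b| ≤ K) {u : ℝ} (hu : |u| ≤ K)
    (hs : |Real.log (A * Real.exp u + B) - m| < s) :
    (b - a) * Real.exp (-(2 * K)) * (A * Real.exp u / (A * Real.exp u + B)) ≤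
      clip m (s + 2 * K) (Real.log (A * Real.exp b + B)) -
        clip m (s + 2 * K) (Real.log (A * Real.exp a + B)) := by
  have hpos : ∀ r : ℝ, 0 < A * Real.exp r + B := by
    intro r
    rcases hA.eq_or_lt with h | h
    · rw [← h] at hAB ⊢
      simpa using hAB
    · have := mul_pos h (Real.exp_pos r)
      linarith
  -- one sided Lipschitz
  have key : ∀ r t : ℝ, r ≤ t → Real.log (A * Real.exp r + B) ≤ Real.log (A * Real.exp t + B) ∧
      Real.log (A * Real.exp t + B) ≤ Real.log (A * Real.exp r + B) + (t - r) := by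
    intro r t hrt
    have h1 : Real.exp r ≤ Real.exp t := Real.exp_le_exp.2 hrt
    have h2 := mul_le_mul_of_nonneg_left h1 hA
    refine ⟨Real.log_le_log (hpos r) (by linarith), ?_⟩
    have h3 : A * Real.exp t + B ≤ (A * Real.exp r + B) * Real.exp (t - r) := by
      have h4 : Real.exp t = Real.exp r * Real.exp (t - r) := by
        rw [← Real.exp_add]
        congr 1
        ring
      have h5 : 1 ≤ Real.exp (t - r) := Real.one_le_exp (by linarith)
      have h6 := mul_le_mul_of_nonneg_left h5 hB
      rw [h4]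
      nlinarith
    have h7 := Real.log_le_log (hpos t) h3
    rwa [Real.log_mul (hpos r).ne' (Real.exp_pos _).ne', Real.log_exp] at h7
  have lip : ∀ r : ℝ, |r| ≤ K → |Real.log (A * Real.exp r + B) - m| ≤ s + 2 * K := by
    intro r hr
    obtain ⟨c1, c2⟩ := abs_lt.1 hs
    obtain ⟨c3, c4⟩ := abs_le.1 hr
    obtain ⟨c5, c6⟩ := abs_le.1 hu
    rw [abs_le]
    rcases le_total r u with h | h
    · obtain ⟨k1, k2⟩ := key r u h
      constructor <;> linarith
    · obtain ⟨k1, k2⟩ := key u r h
      constructor <;> linarith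
  rw [clip_eq (lip b hb), clip_eq (lip a ha)]
  -- lower bound of the increment
  obtain ⟨pa, hpa⟩ : ∃ pa, pa = A * Real.exp a / (A * Real.exp a + B) := ⟨_, rfl⟩
  obtain ⟨pu, hpu⟩ : ∃ pu, pu = A * Real.exp u / (A * Real.exp u + B) := ⟨_, rfl⟩
  have hpa0 : 0 ≤ pa := by
    rw [hpa]
    exact div_nonneg (mul_nonneg hA (Real.exp_pos _).le) (hpos a).le
  have hpa1 : pa ≤ 1 := by
    rw [hpa]
    exact div_le_one_of_le₀ (by linarith) (hpos a).le
  have h1 : (b - a) * pa ≤ Real.log (A * Real.exp b + B) - Real.log (A * Real.exp a + B) := by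
    rw [← Real.log_div (hpos b).ne' (hpos a).ne']
    have e1 : (A * Real.exp b + B) / (A * Real.exp a + B) = pa * Real.exp (b - a) + (1 - pa) := by
      rw [hpa, Real.exp_sub]
      field_simp [(hpos a).ne']
      ring
    have h2 : Real.exp ((b - a) * pa) ≤ pa * Real.exp (b - a) + (1 - pa) := by
      have h3 := convexOn_exp.2 (Set.mem_univ (b - a)) (Set.mem_univ 0) hpa0
        (by linarith : (0 : ℝ) ≤ 1 - pa) (by ring)
      simp only [smul_eq_mul, mul_zero, add_zero, Real.exp_zero, mul_one] at h3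
      rwa [mul_comm pa (b - a)] at h3
    rw [e1, ← Real.log_exp ((b - a) * pa)]
    exact Real.log_le_log (Real.exp_pos _) h2
  have h2 : Real.exp (-(2 * K)) * pu ≤ pa := by
    rw [hpa, hpu, ← mul_div_assoc, div_le_div_iff₀ (hpos u) (hpos a)]
    have c1 : Real.exp (-(2 * K)) * Real.exp u ≤ Real.exp a := by
      rw [← Real.exp_add]
      obtain ⟨c3, c4⟩ := abs_le.1 ha
      obtain ⟨c5, c6⟩ := abs_le.1 hu
      exact Real.exp_le_exp.2 (by linarith)
    have c2 : Real.exp (-(2 * K)) ≤ 1 := Real.exp_le_one_iff.2 (by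
      have := abs_nonneg a
      linarith)
    have d1 : Real.exp (-(2 * K)) * (A * Real.exp u) * (A * Real.exp a) ≤
        A * Real.exp a * (A * Real.exp u) := by
      have := mul_le_mul_of_nonneg_right c2
        (mul_nonneg (mul_nonneg hA (Real.exp_pos u).le) (mul_nonneg hA (Real.exp_pos a).le))
      nlinarith
    have d2 : Real.exp (-(2 * K)) * (A * Real.exp u) * B ≤ A * Real.exp a * B := by
      have := mul_le_mul_of_nonneg_left c1 (mul_nonneg hA hB)
      nlinarith
    nlinarith
  have h3 := mul_le_mul_of_nonneg_left h2 (by linarith : (0 : ℝ) ≤ b - a)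
  rw [← hpu]
  calc (b - a) * Real.exp (-(2 * K)) * pu = (b - a) * (Real.exp (-(2 * K)) * pu) := by ring
    _ ≤ (b - a) * pa := h3
    _ ≤ _ := h1

variable {μ : Measure ℝ} [IsProbabilityMeasure μ]

/-- Resampling one site preserves the law. -/
lemma mp_update (p : Pt) :
    MeasurePreserving (fun w : Env × ℝ => Function.update w.1 p w.2) ((law μ).prod μ) (law μ) := by
  have h1 : MeasurePreserving (fun w : Env × Env => W_7d29a1_f21.splice ({p}ᶜ : Set Pt) w.1 w.2)
      ((law μ).prod (law μ)) (law μ) := W_7d29a1_f21.mp_splice (μ := μ) ({p}ᶜ : Set Pt)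
  have h0 : MeasurePreserving (fun g : Env => g p) (law μ) μ :=
    measurePreserving_eval_infinitePi (fun _ : Pt => μ) p
  have h2 : MeasurePreserving (fun w : Env × Env => (w.1, w.2 p)) ((law μ).prod (law μ))
      ((law μ).prod μ) := (MeasurePreserving.id _).prod h0
  have hm : Measurable (fun w : Env × ℝ => Function.update w.1 p w.2) := by
    refine measurable_pi_iff.2 fun q => ?_
    by_cases hq : q = p
    · subst hq
      simp only [Function.update_self]
      exact measurable_snd
    · simp only [Function.update_of_ne hq]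
      fun_prop
  refine ⟨hm, ?_⟩
  rw [← h2.map_eq, Measure.map_map hm h2.measurable]
  refine Eq.trans ?_ h1.map_eq
  congr 1
  funext w q
  by_cases hq : q = p
  · subst hq
    simp [W_7d29a1_f21.splice]
  · have : q ∈ ({p}ᶜ : Set Pt) := hq
    rw [W_7d29a1_f21.splice_mem _ _ this]
    simp [Function.update_of_ne hq]

lemma integral_update (p : Pt) {F : Env → ℝ} (hF : Integrable F (law μ)) :
    ∫ g, F g ∂(law μ) = ∫ g, ∫ u, F (Function.update g p u) ∂μ ∂(law μ) := by
  have h1 := mp_update (μ := μ) p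
  have h2 : Integrable (fun w : Env × ℝ => F (Function.update w.1 p w.2)) ((law μ).prod μ) :=
    h1.integrable_comp_of_integrable hF
  rw [← integral_prod (fun w : Env × ℝ => F (Function.update w.1 p w.2)) h2]
  exact (W_7d29a1_f21.mp_integral h1 hF.aestronglyMeasurable).symm

lemma integrable_update (p : Pt) {F : Env → ℝ} (hF : Integrable F (law μ)) :
    Integrable (fun g => ∫ u, F (Function.update g p u) ∂μ) (law μ) := by
  have h1 := mp_update (μ := μ) p
  have h2 : Integrable (fun w : Env × ℝ => F (Function.update w.1 p w.2)) ((law μ).prod μ) :=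
    h1.integrable_comp_of_integrable hF
  exact h2.integral_prod_left

/-- The test function of one site: `1{b ≤ u} / μ[b, ∞) - 1{u ≤ a} / μ(-∞, a]`. -/
noncomputable def gt (μ : Measure ℝ) (a b u : ℝ) : ℝ :=
  (Set.Ici b).indicator (fun _ => (μ.real (Set.Ici b))⁻¹) u -
    (Set.Iic a).indicator (fun _ => (μ.real (Set.Iic a))⁻¹) u

lemma gt_measurable (a b : ℝ) : Measurable (gt μ a b) := by
  unfold gt
  exact (measurable_const.indicator measurableSet_Ici).sub
    (measurable_const.indicator measurableSet_Iic)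

lemma gt_abs (a b u : ℝ) : |gt μ a b u| ≤ (μ.real (Set.Ici b))⁻¹ + (μ.real (Set.Iic a))⁻¹ := by
  have h1 : (0 : ℝ) ≤ (μ.real (Set.Ici b))⁻¹ := inv_nonneg.2 measureReal_nonneg
  have h2 : (0 : ℝ) ≤ (μ.real (Set.Iic a))⁻¹ := inv_nonneg.2 measureReal_nonneg
  unfold gt
  refine (abs_sub _ _).trans (add_le_add ?_ ?_)
  · by_cases h : u ∈ Set.Ici b
    · rw [Set.indicator_of_mem h, abs_of_nonneg h1]
    · rw [Set.indicator_of_notMem h, abs_zero]
      exact h1
  · by_cases h : u ∈ Set.Iic a
    · rw [Set.indicator_of_mem h, abs_of_nonneg h2]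
    · rw [Set.indicator_of_notMem h, abs_zero]
      exact h2

lemma gt_integrable (a b : ℝ) : Integrable (gt μ a b) μ :=
  Integrable.of_bound (gt_measurable a b).aestronglyMeasurable _
    (Filter.Eventually.of_forall fun u => by
      rw [Real.norm_eq_abs]
      exact gt_abs a b u)

lemma gt_integral {a b : ℝ} (ha : 0 < μ.real (Set.Iic a)) (hb : 0 < μ.real (Set.Ici b)) :
    ∫ u, gt μ a b u ∂μ = 0 := by
  unfold gt
  rw [integral_sub, integral_indicator measurableSet_Ici, integral_indicator measurableSet_Iic,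
    setIntegral_const, setIntegral_const, smul_eq_mul, smul_eq_mul, mul_inv_cancel₀ hb.ne',
    mul_inv_cancel₀ ha.ne', sub_self]
  · exact (integrable_const _).indicator measurableSet_Ici
  · exact (integrable_const _).indicator measurableSet_Iic

/-- A nondecreasing bounded function against the test function. -/
lemma gt_mono {a b : ℝ} (ha : 0 < μ.real (Set.Iic a)) (hb : 0 < μ.real (Set.Ici b)) {T : ℝ → ℝ}
    (hT : Monotone T) (hTi : Integrable T μ) : T b - T a ≤ ∫ u, T u * gt μ a b u ∂μ := by
  have e1 : ∀ u, T u * gt μ a b u = (Set.Ici b).indicator (fun u => T u * (μ.real (Set.Ici b))⁻¹) u -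
      (Set.Iic a).indicator (fun u => T u * (μ.real (Set.Iic a))⁻¹) u := by
    intro u
    unfold gt
    rw [mul_sub]
    congr 1
    · by_cases h : u ∈ Set.Ici b
      · rw [Set.indicator_of_mem h, Set.indicator_of_mem h]
      · rw [Set.indicator_of_notMem h, Set.indicator_of_notMem h, mul_zero]
    · by_cases h : u ∈ Set.Iic a
      · rw [Set.indicator_of_mem h, Set.indicator_of_mem h]
      · rw [Set.indicator_of_notMem h, Set.indicator_of_notMem h, mul_zero]
  simp only [e1]
  rw [integral_sub ((hTi.mul_const _).indicator measurableSet_Ici)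
    ((hTi.mul_const _).indicator measurableSet_Iic), integral_indicator measurableSet_Ici,
    integral_indicator measurableSet_Iic]
  have h1 : T b ≤ ∫ u in Set.Ici b, T u * (μ.real (Set.Ici b))⁻¹ ∂μ := by
    have : ∫ u in Set.Ici b, T b * (μ.real (Set.Ici b))⁻¹ ∂μ ≤
        ∫ u in Set.Ici b, T u * (μ.real (Set.Ici b))⁻¹ ∂μ :=
      setIntegral_mono_on (integrable_const _).integrableOn (hTi.mul_const _).integrableOn
        measurableSet_Ici fun u hu => mul_le_mul_of_nonneg_right (hT hu) (inv_nonneg.2 hb.le)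
    rw [setIntegral_const, smul_eq_mul] at this
    have e2 : μ.real (Set.Ici b) * (T b * (μ.real (Set.Ici b))⁻¹) = T b := by
      field_simp
    linarith
  have h2 : ∫ u in Set.Iic a, T u * (μ.real (Set.Iic a))⁻¹ ∂μ ≤ T a := by
    have : ∫ u in Set.Iic a, T u * (μ.real (Set.Iic a))⁻¹ ∂μ ≤
        ∫ u in Set.Iic a, T a * (μ.real (Set.Iic a))⁻¹ ∂μ :=
      setIntegral_mono_on (hTi.mul_const _).integrableOn (integrable_const _).integrableOn
        measurableSet_Iic fun u hu => mul_le_mul_of_nonneg_right (hT hu) (inv_nonneg.2 ha.le)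
    rw [setIntegral_const, smul_eq_mul] at this
    have e2 : μ.real (Set.Iic a) * (T a * (μ.real (Set.Iic a))⁻¹) = T a := by
      field_simp
    linarith
  linarith

end Pool.Agent.W_7d29a1_h68
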