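import Pool.Agent.W_7d29a1_h68.NP

/-!
MP_7d29a1_pr, track G, hB0: the lower bound for the fluctuations in probability (clipped functional,
one site test functions, Cauchy - Schwarz). (helper68)
-/

namespace Pool.Agent.W_7d29a1_h68

open MeasureTheory ProbabilityTheory Filter Topology Pool.Agent.W_7d29a1_F

variable {μ : Measure ℝ} [IsProbabilityMeasure μ]

/-- `F` and the Gibbs probability `π` of the site `p` as functions of the value at `p`. -/
def SiteForm (F π : Env → ℝ) (p : Pt) : Prop :=
  ∀ η : Env, ∃ A B : ℝ, 0 ≤ A ∧ 0 ≤ B ∧ 0 < A + B ∧ ∀ u : ℝ,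
    F (Function.update η p u) = Real.log (A * Real.exp u + B) ∧
    π (Function.update η p u) = A * Real.exp u / (A * Real.exp u + B)

private lemma pos_of {A B : ℝ} (hA : 0 ≤ A) (hB : 0 ≤ B) (hAB : 0 < A + B) (r : ℝ) :
    0 < A * Real.exp r + B := by
  rcases hA.eq_or_lt with h | h
  · rw [← h] at hAB ⊢
    simpa using hAB
  · have := mul_pos h (Real.exp_pos r)
    linarith

lemma SiteForm.mem {F π : Env → ℝ} {p : Pt} (h : SiteForm F π p) (η : Env) : 0 ≤ π η ∧ π η ≤ 1 := by
  obtain ⟨A, B, hA, hB, hAB, hu⟩ := h η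
  have h1 := (hu (η p)).2
  rw [Function.update_eq_self] at h1
  have h2 := pos_of hA hB hAB (η p)
  have h3 := mul_nonneg hA (Real.exp_pos (η p)).le
  rw [h1]
  exact ⟨div_nonneg h3 h2.le, div_le_one_of_le₀ (by linarith) h2.le⟩

/-- Harnack inequality for one site. -/
lemma site_har {A B : ℝ} (hA : 0 ≤ A) (hB : 0 ≤ B) (hAB : 0 < A + B) (u : ℝ) :
    A * Real.exp u / (A * Real.exp u + B) ≤ Real.exp |u| * (A / (A + B)) ∧
    Real.exp (-|u|) * (A / (A + B)) ≤ A * Real.exp u / (A * Real.exp u + B) := by
  have h2 := pos_of hA hB hAB u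
  have e0 : Real.exp u ≤ Real.exp |u| := Real.exp_le_exp.2 (le_abs_self u)
  have e1 : Real.exp (-|u|) ≤ Real.exp u := Real.exp_le_exp.2 (neg_abs_le u)
  have e2 : 1 ≤ Real.exp |u| := Real.one_le_exp (abs_nonneg u)
  have e3 : Real.exp (-|u|) ≤ 1 := Real.exp_le_one_iff.2 (neg_nonpos.2 (abs_nonneg u))
  have hA2 : 0 ≤ A * A := mul_nonneg hA hA
  have hAB2 : 0 ≤ A * B := mul_nonneg hA hB
  constructor
  · rw [← mul_div_assoc, div_le_div_iff₀ h2 hAB]
    have k1 := mul_le_mul_of_nonneg_left e0 hAB2
    have k2 := mul_le_mul_of_nonneg_left e2 (mul_nonneg hA2 (Real.exp_pos u).le)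
    nlinarith
  · rw [← mul_div_assoc, div_le_div_iff₀ hAB h2]
    have k1 := mul_le_mul_of_nonneg_left e1 hAB2
    have k2 := mul_le_mul_of_nonneg_left e3 (mul_nonneg hA2 (Real.exp_pos u).le)
    nlinarith

/-- The noise at the site of the polymer is bounded. -/
lemma exists_K (hEM : Pool.Agent.W_7d29a1_h47.EM μ) (K' : ℝ) : ∃ K : ℝ, K' ≤ K ∧
    ∫ u, {u : ℝ | K < |u|}.indicator (fun u => Real.exp |u|) u ∂μ ≤
      1 / 8 * ∫ u, Real.exp (-|u|) ∂μ := by
  have hi : Integrable (fun u : ℝ => Real.exp |u|) μ := by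
    have := hEM 1
    simpa using this
  have hpos : 0 < ∫ u, Real.exp (-|u|) ∂μ := by
    refine integral_exp_pos ?_
    refine Integrable.of_bound (C := 1) (by fun_prop) ?_
    refine Filter.Eventually.of_forall fun u => ?_
    rw [Real.norm_eq_abs, abs_of_pos (Real.exp_pos _)]
    exact Real.exp_le_one_iff.2 (neg_nonpos.2 (abs_nonneg u))
  have ht : Tendsto (fun n : ℕ => ∫ u, {u : ℝ | (n : ℝ) < |u|}.indicator (fun u => Real.exp |u|) u ∂μ)
      atTop (𝓝 0) := by
    have h0 : (0 : ℝ) = ∫ _u : ℝ, (0 : ℝ) ∂μ := by simp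
    rw [h0]
    refine tendsto_integral_of_dominated_convergence (fun u => Real.exp |u|) (fun n => ?_) hi
      (fun n => Filter.Eventually.of_forall fun u => ?_) (Filter.Eventually.of_forall fun u => ?_)
    · exact (Measurable.indicator (by fun_prop)
        (measurableSet_lt measurable_const (by fun_prop))).aestronglyMeasurable
    · rw [Real.norm_eq_abs]
      by_cases h : u ∈ {u : ℝ | (n : ℝ) < |u|}
      · rw [Set.indicator_of_mem h, abs_of_pos (Real.exp_pos _)]
      · rw [Set.indicator_of_notMem h, abs_zero]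
        exact (Real.exp_pos _).le
    · refine tendsto_const_nhds.congr' ?_
      obtain ⟨N, hN⟩ := exists_nat_ge |u|
      filter_upwards [eventually_ge_atTop N] with n hn
      rw [Set.indicator_of_notMem]
      show ¬ (n : ℝ) < |u|
      have : (N : ℝ) ≤ n := by exact_mod_cast hn
      linarith
  have h1 : ∀ᶠ n : ℕ in atTop, ∫ u, {u : ℝ | (n : ℝ) < |u|}.indicator (fun u => Real.exp |u|) u ∂μ <
      1 / 8 * ∫ u, Real.exp (-|u|) ∂μ := ht.eventually (gt_mem_nhds (by linarith))
  obtain ⟨n, hn1, hn2⟩ := (h1.and (eventually_ge_atTop ⌈K'⌉₊)).exists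
  refine ⟨n, (Nat.le_ceil K').trans (by exact_mod_cast hn2), hn1.le⟩

/-- The noise lemma at one site. -/
lemma noise_site {K : ℝ} (hEM : Pool.Agent.W_7d29a1_h47.EM μ)
    (hK : ∫ u, {u : ℝ | K < |u|}.indicator (fun u => Real.exp |u|) u ∂μ ≤
      1 / 8 * ∫ u, Real.exp (-|u|) ∂μ) {F π : Env → ℝ} {p : Pt} (hπ : Measurable π)
    (h : SiteForm F π p) :
    ∫ η, {η : Env | K < |η p|}.indicator π η ∂(law μ) ≤ 1 / 8 * ∫ η, π η ∂(law μ) := by
  have hi : Integrable (fun u : ℝ => Real.exp |u|) μ := by
    have := hEM 1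
    simpa using this
  have hi2 : Integrable (fun u : ℝ => Real.exp (-|u|)) μ := by
    refine Integrable.of_bound (C := 1) (by fun_prop) ?_
    refine Filter.Eventually.of_forall fun u => ?_
    rw [Real.norm_eq_abs, abs_of_pos (Real.exp_pos _)]
    exact Real.exp_le_one_iff.2 (neg_nonpos.2 (abs_nonneg u))
  have hset : MeasurableSet {η : Env | K < |η p|} :=
    measurableSet_lt measurable_const (measurable_pi_apply p).abs
  have hsetu : MeasurableSet {u : ℝ | K < |u|} := measurableSet_lt measurable_const (by fun_prop)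
  have hiπ : Integrable π (law μ) := Integrable.of_bound (C := 1) hπ.aestronglyMeasurable
    (Filter.Eventually.of_forall fun η => by
      rw [Real.norm_eq_abs, abs_of_nonneg (h.mem η).1]
      exact (h.mem η).2)
  have hiπ2 : Integrable ({η : Env | K < |η p|}.indicator π) (law μ) := hiπ.indicator hset
  rw [integral_update p hiπ2, integral_update p hiπ, ← integral_const_mul]
  refine integral_mono (integrable_update p hiπ2) ((integrable_update p hiπ).const_mul _) fun η => ?_
  obtain ⟨A, B, hA, hB, hAB, hu⟩ := h η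
  have e1 : ∀ u : ℝ, {η : Env | K < |η p|}.indicator π (Function.update η p u) =
      {u : ℝ | K < |u|}.indicator (fun u => A * Real.exp u / (A * Real.exp u + B)) u := by
    intro u
    by_cases hK' : K < |u|
    · rw [Set.indicator_of_mem (show u ∈ {u : ℝ | K < |u|} from hK'), Set.indicator_of_mem, (hu u).2]
      show K < |Function.update η p u p|
      rwa [Function.update_self]
    · rw [Set.indicator_of_notMem (show u ∉ {u : ℝ | K < |u|} from hK'), Set.indicator_of_notMem]
      show ¬ K < |Function.update η p u p|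
      rwa [Function.update_self]
  simp only [e1, (hu _).2]
  have hAB0 : 0 ≤ A / (A + B) := div_nonneg hA hAB.le
  have hmeas : Measurable fun u : ℝ => A * Real.exp u / (A * Real.exp u + B) := by fun_prop
  have hbd : ∀ u : ℝ, |A * Real.exp u / (A * Real.exp u + B)| ≤ 1 := by
    intro u
    have h2 := pos_of hA hB hAB u
    have h3 := mul_nonneg hA (Real.exp_pos u).le
    rw [abs_of_nonneg (div_nonneg h3 h2.le)]
    exact div_le_one_of_le₀ (by linarith) h2.le
  have hiu : Integrable (fun u : ℝ => A * Real.exp u / (A * Real.exp u + B)) μ :=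
    Integrable.of_bound (C := 1) hmeas.aestronglyMeasurable (Filter.Eventually.of_forall hbd)
  calc ∫ u, {u : ℝ | K < |u|}.indicator (fun u => A * Real.exp u / (A * Real.exp u + B)) u ∂μ
      ≤ ∫ u, {u : ℝ | K < |u|}.indicator (fun u => Real.exp |u|) u * (A / (A + B)) ∂μ := by
        refine integral_mono (hiu.indicator hsetu) ((hi.indicator hsetu).mul_const _) fun u => ?_
        by_cases hK' : u ∈ {u : ℝ | K < |u|}
        · simp only [Set.indicator_of_mem hK']
          exact (site_har hA hB hAB u).1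
        · simp only [Set.indicator_of_notMem hK', zero_mul, le_refl]
    _ = (∫ u, {u : ℝ | K < |u|}.indicator (fun u => Real.exp |u|) u ∂μ) * (A / (A + B)) :=
        integral_mul_const _ _
    _ ≤ (1 / 8 * ∫ u, Real.exp (-|u|) ∂μ) * (A / (A + B)) := mul_le_mul_of_nonneg_right hK hAB0
    _ = 1 / 8 * ∫ u, Real.exp (-|u|) * (A / (A + B)) ∂μ := by
        rw [integral_mul_const]
        ring
    _ ≤ 1 / 8 * ∫ u, A * Real.exp u / (A * Real.exp u + B) ∂μ := by
        refine mul_le_mul_of_nonneg_left ?_ (by norm_num)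
        exact integral_mono (hi2.mul_const _) hiu fun u => (site_har hA hB hAB u).2

/-- The response of the clipped functional to one site. -/
lemma response_site {a b K : ℝ} (hab : a < b) (ha : 0 < μ.real (Set.Iic a))
    (hb : 0 < μ.real (Set.Ici b)) (haK : |a| ≤ K) (hbK : |b| ≤ K) {F π : Env → ℝ} {p : Pt}
    (hF : Measurable F) (hπ : Measurable π) (h : SiteForm F π p) {m s : ℝ} (hs : 0 ≤ s) :
    (b - a) * Real.exp (-(2 * K)) *
        ∫ η, {η : Env | |F η - m| < s ∧ |η p| ≤ K}.indicator π η ∂(law μ) ≤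
      ∫ η, clip m (s + 2 * K) (F η) * gt μ a b (η p) ∂(law μ) := by
  have hK0 : 0 ≤ K := (abs_nonneg a).trans haK
  have hH : 0 ≤ s + 2 * K := by linarith
  have hset : MeasurableSet {η : Env | |F η - m| < s ∧ |η p| ≤ K} :=
    (measurableSet_lt (hF.sub_const m).abs measurable_const).inter
      (measurableSet_le (measurable_pi_apply p).abs measurable_const)
  have hiπ : Integrable π (law μ) := Integrable.of_bound (C := 1) hπ.aestronglyMeasurable
    (Filter.Eventually.of_forall fun η => by
      rw [Real.norm_eq_abs, abs_of_nonneg (h.mem η).1]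
      exact (h.mem η).2)
  have hiπ2 : Integrable ({η : Env | |F η - m| < s ∧ |η p| ≤ K}.indicator π) (law μ) :=
    hiπ.indicator hset
  have hclb : ∀ r : ℝ, |clip m (s + 2 * K) r| ≤ |m| + (s + 2 * K) := by
    intro r
    have h1 := clip_abs (m := m) hH r
    have h2 : clip m (s + 2 * K) r = m + (clip m (s + 2 * K) r - m) := by ring
    rw [h2]
    exact (abs_add_le _ _).trans (by linarith)
  have hclm : Measurable fun η => clip m (s + 2 * K) (F η) := (clip_measurable m _).comp hF
  have hgm : Measurable fun η : Env => gt μ a b (η p) :=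
    (gt_measurable a b).comp (measurable_pi_apply p)
  have hiT : Integrable (fun η => clip m (s + 2 * K) (F η) * gt μ a b (η p)) (law μ) := by
    refine Integrable.of_bound (C := (|m| + (s + 2 * K)) *
      ((μ.real (Set.Ici b))⁻¹ + (μ.real (Set.Iic a))⁻¹)) (hclm.mul hgm).aestronglyMeasurable
      (Filter.Eventually.of_forall fun η => ?_)
    rw [norm_mul, Real.norm_eq_abs, Real.norm_eq_abs]
    exact mul_le_mul (hclb _) (gt_abs a b _) (abs_nonneg _) (by positivity)
  rw [integral_update p hiπ2, integral_update p hiT, ← integral_const_mul]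
  refine integral_mono ((integrable_update p hiπ2).const_mul _) (integrable_update p hiT)
    fun η => ?_
  obtain ⟨A, B, hA, hB, hAB, hu⟩ := h η
  simp only [(hu _).1, Function.update_self]
  -- the monotone function of one variable
  have hmonoT : Monotone fun u : ℝ => clip m (s + 2 * K) (Real.log (A * Real.exp u + B)) := by
    intro u v huv
    refine clip_mono _ _ (Real.log_le_log (pos_of hA hB hAB u) ?_)
    have := mul_le_mul_of_nonneg_left (Real.exp_le_exp.2 huv) hA
    linarith
  have hTm : Measurable fun u : ℝ => clip m (s + 2 * K) (Real.log (A * Real.exp u + B)) :=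
    (clip_measurable m _).comp (by fun_prop)
  have hTi : Integrable (fun u : ℝ => clip m (s + 2 * K) (Real.log (A * Real.exp u + B))) μ :=
    Integrable.of_bound (C := |m| + (s + 2 * K)) hTm.aestronglyMeasurable
      (Filter.Eventually.of_forall fun u => by
        rw [Real.norm_eq_abs]
        exact hclb _)
  refine le_trans ?_ (gt_mono ha hb hmonoT hTi)
  have e1 : ∀ u : ℝ, {η : Env | |F η - m| < s ∧ |η p| ≤ K}.indicator π (Function.update η p u) =
      {u : ℝ | |Real.log (A * Real.exp u + B) - m| < s ∧ |u| ≤ K}.indicator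
        (fun u => A * Real.exp u / (A * Real.exp u + B)) u := by
    intro u
    by_cases hK' : |Real.log (A * Real.exp u + B) - m| < s ∧ |u| ≤ K
    · rw [Set.indicator_of_mem (show u ∈ {u : ℝ | |Real.log (A * Real.exp u + B) - m| < s ∧ |u| ≤ K}
        from hK'), Set.indicator_of_mem, (hu u).2]
      show |F (Function.update η p u) - m| < s ∧ |Function.update η p u p| ≤ K
      rwa [(hu u).1, Function.update_self]
    · rw [Set.indicator_of_notMem (show u ∉ {u : ℝ | |Real.log (A * Real.exp u + B) - m| < s ∧ |u| ≤ K}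
        from hK'), Set.indicator_of_notMem]
      show ¬ (|F (Function.update η p u) - m| < s ∧ |Function.update η p u p| ≤ K)
      rwa [(hu u).1, Function.update_self]
  simp only [e1]
  have hmeas : Measurable fun u : ℝ => A * Real.exp u / (A * Real.exp u + B) := by fun_prop
  have hiu : Integrable (fun u : ℝ => A * Real.exp u / (A * Real.exp u + B)) μ := by
    refine Integrable.of_bound (C := 1) hmeas.aestronglyMeasurable
      (Filter.Eventually.of_forall fun u => ?_)
    have h2 := pos_of hA hB hAB u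
    have h3 := mul_nonneg hA (Real.exp_pos u).le
    rw [Real.norm_eq_abs, abs_of_nonneg (div_nonneg h3 h2.le)]
    exact div_le_one_of_le₀ (by linarith) h2.le
  have hlm : Measurable fun u : ℝ => |Real.log (A * Real.exp u + B) - m| :=
    Measurable.abs (f := fun u : ℝ => Real.log (A * Real.exp u + B) - m) (by fun_prop)
  have habs : Measurable fun u : ℝ => |u| := by fun_prop
  have hsetu : MeasurableSet {u : ℝ | |Real.log (A * Real.exp u + B) - m| < s ∧ |u| ≤ K} :=
    (measurableSet_lt hlm measurable_const).inter (measurableSet_le habs measurable_const)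
  have hTab : 0 ≤ clip m (s + 2 * K) (Real.log (A * Real.exp b + B)) -
      clip m (s + 2 * K) (Real.log (A * Real.exp a + B)) := sub_nonneg.2 (hmonoT hab.le)
  rw [← integral_const_mul]
  calc ∫ u, (b - a) * Real.exp (-(2 * K)) *
        {u : ℝ | |Real.log (A * Real.exp u + B) - m| < s ∧ |u| ≤ K}.indicator
          (fun u => A * Real.exp u / (A * Real.exp u + B)) u ∂μ
      ≤ ∫ _u : ℝ, (clip m (s + 2 * K) (Real.log (A * Real.exp b + B)) -
          clip m (s + 2 * K) (Real.log (A * Real.exp a + B))) ∂μ := by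
        refine integral_mono ((hiu.indicator hsetu).const_mul _) (integrable_const _) fun u => ?_
        by_cases hK' : u ∈ {u : ℝ | |Real.log (A * Real.exp u + B) - m| < s ∧ |u| ≤ K}
        · simp only [Set.indicator_of_mem hK']
          exact site_calc hA hB hAB hab haK hbK hK'.2 hK'.1
        · simp only [Set.indicator_of_notMem hK', mul_zero]
          exact hTab
    _ = _ := by simp

/-- The test functions of different sites are orthogonal. -/
lemma gt_cross {a b : ℝ} (ha : 0 < μ.real (Set.Iic a)) (hb : 0 < μ.real (Set.Ici b)) {p q : Pt}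
    (hpq : p ≠ q) : ∫ η : Env, gt μ a b (η p) * gt μ a b (η q) ∂(law μ) = 0 := by
  have hg : ∀ p : Pt, Measurable fun η : Env => gt μ a b (η p) := fun p =>
    (gt_measurable a b).comp (measurable_pi_apply p)
  have hi : Integrable (fun η : Env => gt μ a b (η p) * gt μ a b (η q)) (law μ) := by
    refine Integrable.of_bound (C := ((μ.real (Set.Ici b))⁻¹ + (μ.real (Set.Iic a))⁻¹) *
      ((μ.real (Set.Ici b))⁻¹ + (μ.real (Set.Iic a))⁻¹)) ((hg p).mul (hg q)).aestronglyMeasurable
      (Filter.Eventually.of_forall fun η => ?_)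
    rw [norm_mul, Real.norm_eq_abs, Real.norm_eq_abs]
    exact mul_le_mul (gt_abs a b _) (gt_abs a b _) (abs_nonneg _) (by positivity)
  rw [integral_update p hi]
  simp only [Function.update_self, Function.update_of_ne hpq.symm, integral_mul_const,
    gt_integral ha hb, zero_mul, integral_zero]

lemma gt_sum_sq {a b : ℝ} (ha : 0 < μ.real (Set.Iic a)) (hb : 0 < μ.real (Set.Ici b))
    (I : Finset Pt) : ∫ η : Env, (∑ p ∈ I, gt μ a b (η p)) ^ 2 ∂(law μ) ≤
      I.card * ((μ.real (Set.Ici b))⁻¹ + (μ.real (Set.Iic a))⁻¹) ^ 2 := by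
  have hg : ∀ p : Pt, Measurable fun η : Env => gt μ a b (η p) := fun p =>
    (gt_measurable a b).comp (measurable_pi_apply p)
  obtain ⟨κ, hκ⟩ : ∃ κ, κ = (μ.real (Set.Ici b))⁻¹ + (μ.real (Set.Iic a))⁻¹ := ⟨_, rfl⟩
  have hκ0 : 0 ≤ κ := by
    rw [hκ]
    positivity
  have hi : ∀ p q : Pt, Integrable (fun η : Env => gt μ a b (η p) * gt μ a b (η q)) (law μ) := by
    intro p q
    refine Integrable.of_bound (C := κ * κ) ((hg p).mul (hg q)).aestronglyMeasurable
      (Filter.Eventually.of_forall fun η => ?_)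
    rw [norm_mul, Real.norm_eq_abs, Real.norm_eq_abs, hκ]
    exact mul_le_mul (gt_abs a b _) (gt_abs a b _) (abs_nonneg _) (by rw [← hκ]; exact hκ0)
  rw [← hκ]
  calc ∫ η : Env, (∑ p ∈ I, gt μ a b (η p)) ^ 2 ∂(law μ)
      = ∫ η : Env, ∑ p ∈ I, ∑ q ∈ I, gt μ a b (η p) * gt μ a b (η q) ∂(law μ) := by
        congr 1
        funext η
        rw [sq, Finset.sum_mul_sum]
    _ = ∑ p ∈ I, ∑ q ∈ I, ∫ η : Env, gt μ a b (η p) * gt μ a b (η q) ∂(law μ) := by
        rw [integral_finsetSum]
        · refine Finset.sum_congr rfl fun p _ => ?_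
          rw [integral_finsetSum]
          exact fun q _ => hi p q
        · exact fun p _ => integrable_finsetSum _ fun q _ => hi p q
    _ = ∑ p ∈ I, ∫ η : Env, gt μ a b (η p) * gt μ a b (η p) ∂(law μ) := by
        refine Finset.sum_congr rfl fun p hp => ?_
        rw [Finset.sum_eq_single_of_mem p hp]
        intro q _ hq
        exact gt_cross ha hb (Ne.symm hq)
    _ ≤ ∑ _p ∈ I, κ ^ 2 := by
        refine Finset.sum_le_sum fun p _ => ?_
        calc ∫ η : Env, gt μ a b (η p) * gt μ a b (η p) ∂(law μ) ≤ ∫ _η : Env, κ ^ 2 ∂(law μ) := by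
              refine integral_mono (hi p p) (integrable_const _) fun η => ?_
              have h1 := gt_abs (μ := μ) a b (η p)
              rw [← hκ] at h1
              show gt μ a b (η p) * gt μ a b (η p) ≤ κ ^ 2
              rw [← sq, ← sq_abs]
              exact pow_le_pow_left₀ (abs_nonneg _) h1 2
          _ = κ ^ 2 := by simp
    _ = I.card * κ ^ 2 := by rw [Finset.sum_const, nsmul_eq_mul]

/-- **Fluctuations in probability.** -/
theorem np_clip (hEM : Pool.Agent.W_7d29a1_h47.EM μ) (hnd : Pool.Agent.W_7d29a1_h47.Nondeg μ) :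
    ∃ c K : ℝ, 0 < c ∧ 0 ≤ K ∧ ∀ (I : Finset Pt) (F : Env → ℝ) (π : Pt → Env → ℝ), Measurable F →
      (∀ p ∈ I, Measurable (π p)) → (∀ p ∈ I, SiteForm F (π p) p) → ∀ M m s : ℝ, 0 ≤ s →
      (∀ η, ∑ p ∈ I, π p η ≤ M) →
      0 ≤ 7 / 8 * (∑ p ∈ I, ∫ η, π p η ∂(law μ)) - M * (law μ).real {η | s ≤ |F η - m|} →
      (c * (7 / 8 * (∑ p ∈ I, ∫ η, π p η ∂(law μ)) - M * (law μ).real {η | s ≤ |F η - m|})) ^ 2 ≤
        I.card * (s ^ 2 + (s + K) ^ 2 * (law μ).real {η | s ≤ |F η - m|}) := by
  obtain ⟨a, b, hab, ha, hb⟩ := Pool.Agent.W_7d29a1_h47.exists_gap hnd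
  obtain ⟨K, hK', hK⟩ := exists_K hEM (max |a| |b|)
  have haK : |a| ≤ K := (le_max_left _ _).trans hK'
  have hbK : |b| ≤ K := (le_max_right _ _).trans hK'
  have hK0 : 0 ≤ K := (abs_nonneg a).trans haK
  obtain ⟨κ, hκ⟩ : ∃ κ, κ = (μ.real (Set.Ici b))⁻¹ + (μ.real (Set.Iic a))⁻¹ := ⟨_, rfl⟩
  have hκ0 : 0 < κ := by
    rw [hκ]
    positivity
  obtain ⟨c₁, hc₁⟩ : ∃ c₁, c₁ = (b - a) * Real.exp (-(2 * K)) := ⟨_, rfl⟩
  have hc₁0 : 0 < c₁ := by
    rw [hc₁]
    exact mul_pos (by linarith) (Real.exp_pos _)
  refine ⟨c₁ / κ, 2 * K, by positivity, by linarith, ?_⟩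
  intro I F π hF hπ hS M m s hs hM hX
  obtain ⟨Pb, hPb⟩ : ∃ Pb, Pb = (law μ).real {η | s ≤ |F η - m|} := ⟨_, rfl⟩
  obtain ⟨Y, hY⟩ : ∃ Y, Y = 7 / 8 * (∑ p ∈ I, ∫ η, π p η ∂(law μ)) - M * Pb := ⟨_, rfl⟩
  rw [← hPb] at hX ⊢
  rw [← hY] at hX ⊢
  have hH : 0 ≤ s + 2 * K := by linarith
  have hbad : MeasurableSet {η : Env | s ≤ |F η - m|} :=
    measurableSet_le measurable_const (hF.sub_const m).abs
  -- integrability
  have hiπ : ∀ p ∈ I, Integrable (π p) (law μ) := fun p hp =>
    Integrable.of_bound (C := 1) (hπ p hp).aestronglyMeasurable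
      (Filter.Eventually.of_forall fun η => by
        rw [Real.norm_eq_abs, abs_of_nonneg ((hS p hp).mem η).1]
        exact ((hS p hp).mem η).2)
  have hg : ∀ p : Pt, Measurable fun η : Env => gt μ a b (η p) := fun p =>
    (gt_measurable a b).comp (measurable_pi_apply p)
  have hclm : Measurable fun η => clip m (s + 2 * K) (F η) := (clip_measurable m _).comp hF
  obtain ⟨T, hT⟩ : ∃ T : Env → ℝ, T = fun η => clip m (s + 2 * K) (F η) - m := ⟨_, rfl⟩
  obtain ⟨S, hSd⟩ : ∃ S : Env → ℝ, S = fun η => ∑ p ∈ I, gt μ a b (η p) := ⟨_, rfl⟩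
  have hTm : Measurable T := by
    rw [hT]
    exact hclm.sub_const m
  have hSm : Measurable S := by
    rw [hSd]
    exact Finset.measurable_sum _ fun p _ => hg p
  have hTb : ∀ η, |T η| ≤ s + 2 * K := by
    intro η
    rw [hT]
    exact clip_abs hH _
  have hSb : ∀ η, |S η| ≤ I.card * κ := by
    intro η
    rw [hSd]
    refine (Finset.abs_sum_le_sum_abs _ _).trans ?_
    have := Finset.sum_le_card_nsmul I (fun p => |gt μ a b (η p)|) κ fun p _ => by
      rw [hκ]
      exact gt_abs a b _
    rwa [nsmul_eq_mul] at this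
  -- step 1: the sum of the responses
  have hresp : c₁ * Y ≤ ∫ η, T η * S η ∂(law μ) := by
    have h1 : ∀ p ∈ I, c₁ * ∫ η, {η : Env | |F η - m| < s ∧ |η p| ≤ K}.indicator (π p) η ∂(law μ) ≤
        ∫ η, T η * gt μ a b (η p) ∂(law μ) := by
      intro p hp
      have h2 := response_site hab ha hb haK hbK hF (hπ p hp) (hS p hp) hs (m := m)
      rw [← hc₁] at h2
      refine h2.trans (le_of_eq ?_)
      have hbnd : ∀ η : Env, ‖gt μ a b (η p)‖ ≤ κ := by
        intro η
        rw [Real.norm_eq_abs, hκ]
        exact gt_abs a b _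
      have hgi : Integrable (fun η : Env => gt μ a b (η p)) (law μ) :=
        Integrable.of_bound (C := κ) (hg p).aestronglyMeasurable (Filter.Eventually.of_forall hbnd)
      have hTi : Integrable (fun η => T η * gt μ a b (η p)) (law μ) := by
        refine Integrable.of_bound (C := (s + 2 * K) * κ) (hTm.mul (hg p)).aestronglyMeasurable
          (Filter.Eventually.of_forall fun η => ?_)
        rw [norm_mul]
        exact mul_le_mul (hTb η) (hbnd η) (norm_nonneg _) hH
      have e1 : ∀ η, clip m (s + 2 * K) (F η) * gt μ a b (η p) =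
          T η * gt μ a b (η p) + m * gt μ a b (η p) := by
        intro η
        rw [hT]
        ring
      simp only [e1]
      rw [integral_add hTi (hgi.const_mul m), integral_const_mul]
      have h3 : ∫ η : Env, gt μ a b (η p) ∂(law μ) = 0 := by
        rw [integral_update p hgi]
        simp only [Function.update_self, gt_integral ha hb, integral_zero]
      rw [h3, mul_zero, add_zero]
    have h2 : ∫ η, T η * S η ∂(law μ) = ∑ p ∈ I, ∫ η, T η * gt μ a b (η p) ∂(law μ) := by
      rw [← integral_finsetSum]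
      · refine integral_congr_ae (Filter.Eventually.of_forall fun η => ?_)
        show T η * S η = ∑ p ∈ I, T η * gt μ a b (η p)
        rw [hSd, Finset.mul_sum]
      · intro p _
        refine Integrable.of_bound (C := (s + 2 * K) * κ) (hTm.mul (hg p)).aestronglyMeasurable
          (Filter.Eventually.of_forall fun η => ?_)
        rw [norm_mul, Real.norm_eq_abs, Real.norm_eq_abs]
        refine mul_le_mul (hTb η) ?_ (abs_nonneg _) hH
        rw [hκ]
        exact gt_abs a b _
    rw [h2]
    refine le_trans ?_ (Finset.sum_le_sum h1)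
    rw [← Finset.mul_sum]
    refine mul_le_mul_of_nonneg_left ?_ hc₁0.le
    -- the good part of the Gibbs probabilities
    have h3 : ∀ p ∈ I, 7 / 8 * ∫ η, π p η ∂(law μ) -
        ∫ η, {η : Env | s ≤ |F η - m|}.indicator (π p) η ∂(law μ) ≤
        ∫ η, {η : Env | |F η - m| < s ∧ |η p| ≤ K}.indicator (π p) η ∂(law μ) := by
      intro p hp
      have hset : MeasurableSet {η : Env | |F η - m| < s ∧ |η p| ≤ K} :=
        (measurableSet_lt (hF.sub_const m).abs measurable_const).inter
          (measurableSet_le (measurable_pi_apply p).abs measurable_const)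
      have hset2 : MeasurableSet {η : Env | K < |η p|} :=
        measurableSet_lt measurable_const (measurable_pi_apply p).abs
      have h4 := noise_site hEM hK (hπ p hp) (hS p hp)
      have h5 : ∫ η, π p η ∂(law μ) ≤
          ∫ η, ({η : Env | |F η - m| < s ∧ |η p| ≤ K}.indicator (π p) η +
            {η : Env | s ≤ |F η - m|}.indicator (π p) η +
            {η : Env | K < |η p|}.indicator (π p) η) ∂(law μ) := by
        refine integral_mono (hiπ p hp) ((((hiπ p hp).indicator hset).add
          ((hiπ p hp).indicator hbad)).add ((hiπ p hp).indicator hset2)) fun η => ?_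
        have hpos := ((hS p hp).mem η).1
        have hn1 : 0 ≤ {η : Env | |F η - m| < s ∧ |η p| ≤ K}.indicator (π p) η :=
          Set.indicator_nonneg (fun ζ _ => ((hS p hp).mem ζ).1) η
        have hn2 : 0 ≤ {η : Env | s ≤ |F η - m|}.indicator (π p) η :=
          Set.indicator_nonneg (fun ζ _ => ((hS p hp).mem ζ).1) η
        have hn3 : 0 ≤ {η : Env | K < |η p|}.indicator (π p) η :=
          Set.indicator_nonneg (fun ζ _ => ((hS p hp).mem ζ).1) η
        show π p η ≤ {η : Env | |F η - m| < s ∧ |η p| ≤ K}.indicator (π p) η +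
            {η : Env | s ≤ |F η - m|}.indicator (π p) η + {η : Env | K < |η p|}.indicator (π p) η
        rcases le_or_gt s |F η - m| with h6 | h6
        · rw [Set.indicator_of_mem (show η ∈ {η : Env | s ≤ |F η - m|} from h6)]
          linarith
        · rcases le_or_gt |η p| K with h7 | h7
          · rw [Set.indicator_of_mem (show η ∈ {η : Env | |F η - m| < s ∧ |η p| ≤ K} from ⟨h6, h7⟩)]
            linarith
          · rw [Set.indicator_of_mem (show η ∈ {η : Env | K < |η p|} from h7)]
            linarith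
      have k1 : Integrable (fun η => {η : Env | |F η - m| < s ∧ |η p| ≤ K}.indicator (π p) η +
          {η : Env | s ≤ |F η - m|}.indicator (π p) η) (law μ) :=
        ((hiπ p hp).indicator hset).add ((hiπ p hp).indicator hbad)
      rw [integral_add k1 ((hiπ p hp).indicator hset2), integral_add ((hiπ p hp).indicator hset)
        ((hiπ p hp).indicator hbad)] at h5
      linarith
    have h6 : ∑ p ∈ I, ∫ η, {η : Env | s ≤ |F η - m|}.indicator (π p) η ∂(law μ) ≤ M * Pb := by
      rw [← integral_finsetSum _ fun p hp => (hiπ p hp).indicator hbad]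
      calc ∫ η, ∑ p ∈ I, {η : Env | s ≤ |F η - m|}.indicator (π p) η ∂(law μ)
          ≤ ∫ η, {η : Env | s ≤ |F η - m|}.indicator (fun _ => M) η ∂(law μ) := by
            refine integral_mono (integrable_finsetSum _ fun p hp => (hiπ p hp).indicator hbad)
              ((integrable_const M).indicator hbad) fun η => ?_
            show ∑ p ∈ I, {η : Env | s ≤ |F η - m|}.indicator (π p) η ≤
              {η : Env | s ≤ |F η - m|}.indicator (fun _ => M) η
            by_cases h7 : η ∈ {η : Env | s ≤ |F η - m|}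
            · simp only [Set.indicator_of_mem h7]
              exact hM η
            · simp only [Set.indicator_of_notMem h7, Finset.sum_const_zero, le_refl]
        _ = M * Pb := by
            rw [integral_indicator hbad, setIntegral_const, smul_eq_mul, hPb, mul_comm]
    have h7 := Finset.sum_le_sum h3
    rw [Finset.sum_sub_distrib, ← Finset.mul_sum] at h7
    rw [hY]
    linarith
  -- step 2: the two second moments
  have hTT : ∫ η, T η ^ 2 ∂(law μ) ≤ s ^ 2 + (s + 2 * K) ^ 2 * Pb := by
    have hiT : Integrable (fun η => T η ^ 2) (law μ) := by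
      refine Integrable.of_bound (C := (s + 2 * K) ^ 2) (hTm.pow_const 2).aestronglyMeasurable
        (Filter.Eventually.of_forall fun η => ?_)
      rw [Real.norm_eq_abs, abs_pow]
      exact pow_le_pow_left₀ (abs_nonneg _) (hTb η) 2
    calc ∫ η, T η ^ 2 ∂(law μ) ≤
        ∫ η, (s ^ 2 + {η : Env | s ≤ |F η - m|}.indicator (fun _ => (s + 2 * K) ^ 2) η) ∂(law μ) := by
          refine integral_mono hiT ((integrable_const _).add
            ((integrable_const _).indicator hbad)) fun η => ?_
          show T η ^ 2 ≤ s ^ 2 + {η : Env | s ≤ |F η - m|}.indicator (fun _ => (s + 2 * K) ^ 2) η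
          by_cases h7 : η ∈ {η : Env | s ≤ |F η - m|}
          · rw [Set.indicator_of_mem h7, ← sq_abs]
            have := pow_le_pow_left₀ (abs_nonneg _) (hTb η) 2
            have := sq_nonneg s
            linarith
          · rw [Set.indicator_of_notMem h7, add_zero, ← sq_abs]
            refine pow_le_pow_left₀ (abs_nonneg _) ?_ 2
            have h8 : |F η - m| < s := lt_of_not_ge h7
            rw [hT]
            exact (clip_abs' hH _).trans h8.le
      _ = s ^ 2 + (s + 2 * K) ^ 2 * Pb := by
          rw [integral_add (integrable_const _) ((integrable_const _).indicator hbad),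
            integral_indicator hbad, setIntegral_const, smul_eq_mul, hPb]
          simp
          ring
  have hSS : ∫ η, S η ^ 2 ∂(law μ) ≤ I.card * κ ^ 2 := by
    rw [hSd, hκ]
    exact gt_sum_sq ha hb I
  -- step 3: Cauchy - Schwarz
  have hiTT : Integrable (fun η => T η ^ 2) (law μ) := by
    refine Integrable.of_bound (C := (s + 2 * K) ^ 2) (hTm.pow_const 2).aestronglyMeasurable
      (Filter.Eventually.of_forall fun η => ?_)
    rw [Real.norm_eq_abs, abs_pow]
    exact pow_le_pow_left₀ (abs_nonneg _) (hTb η) 2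
  have hiSS : Integrable (fun η => S η ^ 2) (law μ) := by
    refine Integrable.of_bound (C := (I.card * κ) ^ 2) (hSm.pow_const 2).aestronglyMeasurable
      (Filter.Eventually.of_forall fun η => ?_)
    rw [Real.norm_eq_abs, abs_pow]
    exact pow_le_pow_left₀ (abs_nonneg _) (hSb η) 2
  have hiTS : Integrable (fun η => T η * S η) (law μ) := by
    refine Integrable.of_bound (C := (s + 2 * K) * (I.card * κ)) (hTm.mul hSm).aestronglyMeasurable
      (Filter.Eventually.of_forall fun η => ?_)
    rw [norm_mul]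
    exact mul_le_mul (hTb η) (hSb η) (norm_nonneg _) hH
  have hcY : 0 ≤ c₁ * Y := mul_nonneg hc₁0.le hX
  have hquad : ∀ x : ℝ, 0 ≤ (I.card * κ ^ 2) * (x * x) + (-(2 * (c₁ * Y))) * x +
      (s ^ 2 + (s + 2 * K) ^ 2 * Pb) := by
    intro x
    have h0 : 0 ≤ ∫ η, (T η - x * S η) ^ 2 ∂(law μ) := integral_nonneg fun η => sq_nonneg _
    have e1 : ∀ η, (T η - x * S η) ^ 2 = T η ^ 2 - 2 * x * (T η * S η) + x * x * S η ^ 2 := by
      intro η
      ring
    simp only [e1] at h0
    have k1 : Integrable (fun η => T η ^ 2 - 2 * x * (T η * S η)) (law μ) :=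
      hiTT.sub (hiTS.const_mul (2 * x))
    rw [integral_add k1 (hiSS.const_mul (x * x)),
      integral_sub hiTT (hiTS.const_mul (2 * x)), integral_const_mul, integral_const_mul] at h0
    have h1 := mul_le_mul_of_nonneg_left hSS (mul_self_nonneg x)
    rcases le_total 0 x with hx | hx
    · have h2 := mul_le_mul_of_nonneg_left hresp (by linarith : (0 : ℝ) ≤ 2 * x)
      linarith
    · have h2 : 0 ≤ (-(2 * (c₁ * Y))) * x := by nlinarith
      have h3 : 0 ≤ ∫ η, T η ^ 2 ∂(law μ) := integral_nonneg fun η => sq_nonneg _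
      have h4 : 0 ≤ ((I.card : ℝ) * κ ^ 2) * (x * x) :=
        mul_nonneg (mul_nonneg (Nat.cast_nonneg _) (sq_nonneg _)) (mul_self_nonneg x)
      have h5 : 0 ≤ s ^ 2 + (s + 2 * K) ^ 2 * Pb := h3.trans hTT
      linarith
  have hd := discrim_le_zero hquad
  unfold discrim at hd
  have hfin : (c₁ * Y) ^ 2 ≤ (I.card * κ ^ 2) * (s ^ 2 + (s + 2 * K) ^ 2 * Pb) := by nlinarith
  have e2 : (c₁ / κ * Y) ^ 2 = (c₁ * Y) ^ 2 / κ ^ 2 := by
    field_simp
  rw [e2, div_le_iff₀ (by positivity)]
  linarith

end Pool.Agent.W_7d29a1_h68
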